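import Pool.Agent.H295R2.Mol.Defs

set_option autoImplicit false

open MeasureTheory Filter Topology Set
open scoped ENNReal

namespace Pool.Agent.H295R2.Mol

noncomputable section

lemma log_limit' {S : ℕ → ℝ} {a : ℝ} (h1 : ∀ ε > 0, ∀ᶠ n : ℕ in atTop, (n:ℝ) ^ (a - ε) ≤ S n)
    (h2 : ∀ ε > 0, ∀ᶠ n : ℕ in atTop, S n ≤ (n:ℝ) ^ (a + ε)) :
    Tendsto (fun n : ℕ => Real.log (S n) / Real.log n) atTop (𝓝 a) := by
  rw [Metric.tendsto_nhds]
  intro ε hε
  filter_upwards [h1 (ε / 2) (by linarith), h2 (ε / 2) (by linarith), eventually_ge_atTop 2] with n h1 h2 hn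
  have hn2 : (1:ℝ) < n := by exact_mod_cast hn
  have hn0 : (0:ℝ) < n := by linarith
  have hlog : 0 < Real.log n := Real.log_pos hn2
  have hS0 : 0 < S n := lt_of_lt_of_le (by positivity) h1
  have h4 : (a - ε / 2) * Real.log n ≤ Real.log (S n) := by
    rw [← Real.log_rpow hn0]
    exact Real.log_le_log (by positivity) h1
  have h5 : Real.log (S n) ≤ (a + ε / 2) * Real.log n := by
    rw [← Real.log_rpow hn0]
    exact Real.log_le_log hS0 h2
  rw [Real.dist_eq, abs_lt]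
  constructor
  · have : a - ε / 2 ≤ Real.log (S n) / Real.log n := by rw [le_div_iff₀ hlog]; exact h4
    linarith
  · have : Real.log (S n) / Real.log n ≤ a + ε / 2 := by rw [div_le_iff₀ hlog]; exact h5
    linarith

/-- The supremum of the real parts of the zeros of `F`. -/
def Theta (F : ℂ → ℂ) : ℝ := sSup (Complex.re '' {s : ℂ | F s = 0})

lemma theta_bdd {lam mu : ℕ → ℂ} {F : ℂ → ℂ} (h : LF lam mu F) :
    BddAbove (Complex.re '' {s : ℂ | F s = 0}) := by
  refine ⟨1, ?_⟩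
  rintro _ ⟨s, hs, rfl⟩
  by_contra hc
  exact (h.inv s (not_le.mp hc)).1 hs

lemma le_theta {lam mu : ℕ → ℂ} {F : ℂ → ℂ} (h : LF lam mu F) {ρ : ℂ} (hρ : F ρ = 0) :
    ρ.re ≤ Theta F :=
  le_csSup (theta_bdd h) ⟨ρ, hρ, rfl⟩

lemma zfr_theta {lam mu : ℕ → ℂ} {F : ℂ → ℂ} (h : LF lam mu F) : ZFr F (Theta F) := by
  intro s hs h0
  exact absurd (le_theta h h0) (not_le.mpr hs)

lemma exists_zero {F : ℂ → ℂ} (hz : ∃ ρ, F ρ = 0) {ε : ℝ} (hε : 0 < ε) :
    ∃ ρ, F ρ = 0 ∧ Theta F - ε < ρ.re := by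
  obtain ⟨ρ, hρ⟩ := hz
  obtain ⟨x, ⟨s, hs, rfl⟩, hx⟩ := exists_lt_of_lt_csSup (s := Complex.re '' {s : ℂ | F s = 0})
    ⟨ρ.re, ρ, hρ, rfl⟩ (show Theta F - ε < sSup _ by unfold Theta; linarith)
  exact ⟨s, hs, hx⟩

lemma nrm_zero_lt_top {F : ℂ → ℂ} {p : ℝ≥0∞} {w : ℝ} (hp : 1 ≤ p) (hw : 1 / p.toReal < w) (σ : ℝ) (N : ℕ) :
    nrm F p w σ N 0 = eLpNorm (fun t : ℝ => (((1 + |t|) ^ (-w) : ℝ) : ℂ)) p volume := by
  unfold nrm GG DP
  simp

lemma wt_lt_top {p : ℝ≥0∞} {w : ℝ} (hp : 1 ≤ p) (hw : 1 / p.toReal < w) :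
    eLpNorm (fun t : ℝ => (((1 + |t|) ^ (-w) : ℝ) : ℂ)) p volume < ⊤ := by
  have hp0 : p ≠ 0 := by
    rintro rfl
    simp at hp
  rcases eq_or_ne p ⊤ with rfl | hpt
  · simp only [ENNReal.toReal_top, div_zero] at hw
    rw [eLpNorm_exponent_top]
    refine lt_of_le_of_lt (eLpNormEssSup_le_of_ae_bound (C := 1) (Eventually.of_forall fun t => ?_))
      ENNReal.ofReal_lt_top
    rw [Complex.norm_real, Real.norm_of_nonneg (by positivity)]
    apply Real.rpow_le_one_of_one_le_of_nonpos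
    · have := abs_nonneg t; linarith
    · linarith
  · have hpr : 0 < p.toReal := ENNReal.toReal_pos hp0 hpt
    rw [eLpNorm_lt_top_iff_lintegral_rpow_enorm_lt_top hp0 hpt]
    have h1 : Integrable (fun t : ℝ => (1 + ‖t‖) ^ (-(w * p.toReal))) := by
      apply integrable_one_add_norm
      simp only [Module.finrank_self, Nat.cast_one]
      rw [div_lt_iff₀ hpr] at hw
      exact hw
    have h2 := h1.hasFiniteIntegral
    rw [HasFiniteIntegral] at h2
    convert h2 using 1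
    apply lintegral_congr
    intro t
    have e1 : ‖(((1 + |t|) ^ (-w) : ℝ) : ℂ)‖ₑ = ENNReal.ofReal ((1 + |t|) ^ (-w)) := by
      rw [← ofReal_norm_eq_enorm, Complex.norm_real, Real.norm_of_nonneg (by positivity)]
    have e2 : ‖(1 + ‖t‖) ^ (-(w * p.toReal))‖ₑ = ENNReal.ofReal ((1 + |t|) ^ (-(w * p.toReal))) := by
      rw [← ofReal_norm_eq_enorm, Real.norm_of_nonneg (by positivity), Real.norm_eq_abs]
    rw [e1, e2, ENNReal.ofReal_rpow_of_nonneg (by positivity) hpr.le, ← Real.rpow_mul (by positivity)]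
    congr 2
    ring

theorem rate_of (hL : Lower) (hU : Upper) {lam mu : ℕ → ℂ} {F : ℂ → ℂ} (hF : LF lam mu F)
    (hz : ∃ ρ, F ρ = 0) {p : ℝ≥0∞} {w : ℝ} (σ : ℝ) (hp : 1 ≤ p) (hw : 1 / p.toReal < w) :
    Tendsto (fun N : ℕ => Real.log (⨅ a : ℕ → ℂ, nrm F p w σ N a).toReal / Real.log N) atTop
      (𝓝 (-(max 0 (σ - Theta F)))) ∧
    (Theta F < σ → Tendsto (fun N : ℕ => Real.log (nrm F p w σ N (moll mu N)).toReal / Real.log N) atTop
      (𝓝 (-(σ - Theta F)))) := by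
  set κ : ℝ := max 0 (σ - Theta F) with hκ
  have hκ0 : 0 ≤ κ := le_max_left _ _
  -- lower bound
  have low : ∀ ε > 0, ∀ᶠ N : ℕ in atTop, ∀ a : ℕ → ℂ, ENNReal.ofReal ((N:ℝ) ^ (-κ - ε)) ≤ nrm F p w σ N a := by
    intro ε hε
    obtain ⟨ρ, hρ, hρ2⟩ := exists_zero hz (show 0 < ε / 3 by positivity)
    obtain ⟨c, hc, h⟩ := hL lam mu F hF p w σ hp ρ hρ (ε / 3) (by positivity)
    have hev : ∀ᶠ N : ℕ in atTop, 1 / c ≤ (N:ℝ) ^ (ε / 3) :=
      ((tendsto_rpow_atTop (by linarith : 0 < ε / 3)).comp tendsto_natCast_atTop_atTop).eventually_ge_atTop _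
    filter_upwards [hev, eventually_ge_atTop 1] with N h1 hN a
    have hN0 : (0:ℝ) < N := by exact_mod_cast hN
    have hN1 : (1:ℝ) ≤ N := by exact_mod_cast hN
    refine le_trans ?_ (h N a hN)
    apply ENNReal.ofReal_le_ofReal
    have hm : max 0 (σ - ρ.re) ≤ κ + ε / 3 := by
      apply max_le
      · positivity
      · have := le_max_right 0 (σ - Theta F)
        rw [← hκ] at this
        linarith
    calc (N:ℝ) ^ (-κ - ε) = (N:ℝ) ^ (-κ - ε / 3 - ε / 3) * (N:ℝ) ^ (-(ε / 3)) := by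
          rw [← Real.rpow_add hN0]; congr 1; ring
      _ ≤ (N:ℝ) ^ (-κ - ε / 3 - ε / 3) * c := by
          refine mul_le_mul_of_nonneg_left ?_ (by positivity)
          rw [Real.rpow_neg hN0.le]
          rw [div_le_iff₀ hc] at h1
          rw [inv_le_iff_one_le_mul₀ (by positivity)]
          linarith
      _ = c * (N:ℝ) ^ (-κ - ε / 3 - ε / 3) := mul_comm _ _
      _ ≤ c * (N:ℝ) ^ (-(max 0 (σ - ρ.re)) - ε / 3) := by
          refine mul_le_mul_of_nonneg_left ?_ hc.le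
          apply Real.rpow_le_rpow_of_exponent_le hN1
          linarith
  have up : Theta F < σ → ∀ ε > 0, ∀ᶠ N : ℕ in atTop,
      nrm F p w σ N (moll mu N) ≤ ENNReal.ofReal ((N:ℝ) ^ (-(σ - Theta F) + ε)) := by
    intro hσ ε hε
    obtain ⟨C, hC, h⟩ := hU lam mu F hF p w hp hw (Theta F) σ (ε / 2) (zfr_theta hF) hσ (by positivity)
    have hev : ∀ᶠ N : ℕ in atTop, C ≤ (N:ℝ) ^ (ε / 2) :=
      ((tendsto_rpow_atTop (by linarith : 0 < ε / 2)).comp tendsto_natCast_atTop_atTop).eventually_ge_atTop _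
    filter_upwards [hev, eventually_ge_atTop 1] with N h1 hN
    have hN0 : (0:ℝ) < N := by exact_mod_cast hN
    refine (h N hN).trans (ENNReal.ofReal_le_ofReal ?_)
    calc C * (N:ℝ) ^ (-(σ - Theta F) + ε / 2) ≤ (N:ℝ) ^ (ε / 2) * (N:ℝ) ^ (-(σ - Theta F) + ε / 2) := by gcongr
      _ = (N:ℝ) ^ (-(σ - Theta F) + ε) := by
          rw [← Real.rpow_add hN0]; congr 1; ring
  constructor
  · refine log_limit' (fun ε hε => ?_) (fun ε hε => ?_)
    · filter_upwards [low ε hε, eventually_ge_atTop 1] with N hN hN1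
      have hN0 : (0:ℝ) < N := by exact_mod_cast hN1
      have h1 : ENNReal.ofReal ((N:ℝ) ^ (-κ - ε)) ≤ ⨅ a : ℕ → ℂ, nrm F p w σ N a := le_iInf hN
      have h2 : (⨅ a : ℕ → ℂ, nrm F p w σ N a) ≠ ⊤ := by
        refine ne_of_lt (lt_of_le_of_lt (iInf_le _ (0 : ℕ → ℂ)) ?_)
        rw [nrm_zero_lt_top hp hw]
        exact wt_lt_top hp hw
      rw [← ENNReal.ofReal_le_iff_le_toReal h2]
      exact h1
    · rcases le_or_gt σ (Theta F) with hcase | hcase
      · have hκ' : κ = 0 := by rw [hκ, max_eq_left]; linarith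
        rw [hκ', neg_zero, zero_add]
        set C0 := (eLpNorm (fun t : ℝ => (((1 + |t|) ^ (-w) : ℝ) : ℂ)) p volume).toReal with hC0
        have hev : ∀ᶠ N : ℕ in atTop, C0 ≤ (N:ℝ) ^ ε :=
          ((tendsto_rpow_atTop hε).comp tendsto_natCast_atTop_atTop).eventually_ge_atTop _
        filter_upwards [hev] with N h1
        refine le_trans ?_ h1
        rw [hC0]
        apply ENNReal.toReal_mono (wt_lt_top hp hw).ne
        rw [← nrm_zero_lt_top (F := F) hp hw σ N]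
        exact iInf_le _ _
      · have hκ' : κ = σ - Theta F := by rw [hκ, max_eq_right]; linarith
        filter_upwards [up hcase ε hε, eventually_ge_atTop 1] with N h1 hN1
        have hN0 : (0:ℝ) < N := by exact_mod_cast hN1
        rw [hκ']
        refine ENNReal.toReal_le_of_le_ofReal (by positivity) ?_
        exact (iInf_le _ (moll mu N)).trans h1
  · intro hcase
    have hκ' : κ = σ - Theta F := by rw [hκ, max_eq_right]; linarith
    refine log_limit' (fun ε hε => ?_) (fun ε hε => ?_)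
    · filter_upwards [low ε hε, up hcase ε hε, eventually_ge_atTop 1] with N hN h1 hN1
      have hN0 : (0:ℝ) < N := by exact_mod_cast hN1
      have h2 : nrm F p w σ N (moll mu N) ≠ ⊤ := ne_top_of_le_ne_top ENNReal.ofReal_ne_top h1
      rw [← ENNReal.ofReal_le_iff_le_toReal h2, ← hκ']
      exact hN _
    · filter_upwards [up hcase ε hε, eventually_ge_atTop 1] with N h1 hN1
      have hN0 : (0:ℝ) < N := by exact_mod_cast hN1
      exact ENNReal.toReal_le_of_le_ofReal (by positivity) h1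

/-- GRH for one primitive character in terms of `Theta`. -/
theorem grh_iff (hD : DirInst) (hS : Sym) (hT : ThetaHalf) (q : ℕ) [NeZero q] (χ : DirichletCharacter ℂ q)
    (hχ : χ ≠ 1) (hp : χ.IsPrimitive) :
    1 / 2 ≤ Theta (DirichletCharacter.LFunction χ) ∧
    ((∀ s : ℂ, 0 < s.re → s.re < 1 → DirichletCharacter.LFunction χ s = 0 → s.re = 1 / 2) ↔
      Theta (DirichletCharacter.LFunction χ) = 1 / 2) := by
  have hF := (hD q χ hχ).1
  have h12 : 1 / 2 ≤ Theta (DirichletCharacter.LFunction χ) := by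
    by_contra hc
    exact hT q χ hχ hp _ (not_le.mp hc) (zfr_theta hF)
  refine ⟨h12, ?_, ?_⟩
  · intro h
    refine le_antisymm ?_ h12
    refine csSup_le ((hD q χ hχ).2.elim fun ρ hρ => ⟨ρ.re, ρ, hρ, rfl⟩) ?_
    rintro _ ⟨s, hs, rfl⟩
    rcases le_or_gt s.re 0 with h0 | h0
    · linarith
    · have h1 : s.re < 1 := by
        by_contra hc
        exact DirichletCharacter.LFunction_ne_zero_of_one_le_re χ (Or.inl hχ) (not_lt.mp hc) hs
      exact (h s h0 h1 hs).le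
  · intro h s h0 h1 hs
    have h2 := le_theta hF hs
    have h3 := le_theta hF (hS q χ hχ hp s h0 h1 hs)
    simp at h3
    rw [h] at h2 h3
    linarith

end

end Pool.Agent.H295R2.Mol
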