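import Mathlib

/-!
# The optimal mollification exponent of an L-function: definitions and statements of the parts

Each `def Xxx : Prop` below is a statement to be proved in its own file.
-/

set_option autoImplicit false

open MeasureTheory Filter Topology Set
open scoped ENNReal

namespace Pool.Agent.H295R2.Mol

noncomputable section

/-- `F` is an entire L-function with coefficients `lam` and inverse coefficients `mu`: both Dirichlet series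
converge absolutely for `Re s > 1`, and `F` is entire with polynomial growth in vertical strips. -/
structure LF (lam mu : ℕ → ℂ) (F : ℂ → ℂ) : Prop where
  entire : Differentiable ℂ F
  growth : ∀ a b : ℝ, ∃ C A : ℝ, ∀ s : ℂ, a ≤ s.re → s.re ≤ b → ‖F s‖ ≤ C * (1 + |s.im|) ^ A
  series : ∀ s : ℂ, 1 < s.re → LSeriesHasSum lam s (F s)
  inv : ∀ s : ℂ, 1 < s.re → F s ≠ 0 ∧ LSeriesHasSum mu s (F s)⁻¹

/-- The Dirichlet polynomial `∑_{n ≤ N} a_n n^{-s}`. -/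
def DP (N : ℕ) (a : ℕ → ℂ) (s : ℂ) : ℂ := ∑ n ∈ Finset.Icc 1 N, a n * (n : ℂ) ^ (-s)

/-- `G = 1 - F A`. -/
def GG (F : ℂ → ℂ) (N : ℕ) (a : ℕ → ℂ) (s : ℂ) : ℂ := 1 - F s * DP N a s

/-- The weighted `L^p` norm of `1 - F A` on the line `Re s = σ`. -/
def nrm (F : ℂ → ℂ) (p : ℝ≥0∞) (w σ : ℝ) (N : ℕ) (a : ℕ → ℂ) : ℝ≥0∞ :=
  eLpNorm (fun t : ℝ => GG F N a (σ + t * Complex.I) * (((1 + |t|) ^ (-w) : ℝ) : ℂ)) p volume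

/-- The explicit coefficients `mu(n) min(1, log(N/n))`. -/
def moll (mu : ℕ → ℂ) (N : ℕ) (n : ℕ) : ℂ := mu n * ((min 1 (Real.log ((N : ℝ) / n)) : ℝ) : ℂ)

/-- `F` has no zero with real part larger than `θ`. -/
def ZFr (F : ℂ → ℂ) (θ : ℝ) : Prop := ∀ s : ℂ, θ < s.re → F s ≠ 0

/-- T0a: Cauchy's formula on two vertical lines with the kernel `exp((s-s0)^2)/(s-s0)`. -/
def Cauchy : Prop := ∀ (H : ℂ → ℂ) (a b : ℝ) (s0 : ℂ), a < s0.re → s0.re < b → Differentiable ℂ H →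
  (∃ C A : ℝ, ∀ s : ℂ, a ≤ s.re → s.re ≤ b → ‖H s‖ ≤ C * (1 + |s.im|) ^ A) →
  2 * (Real.pi : ℂ) * H s0 =
    (∫ t : ℝ, H (b + t * Complex.I) * (Complex.exp ((b + t * Complex.I - s0) ^ 2) / (b + t * Complex.I - s0))) -
    ∫ t : ℝ, H (a + t * Complex.I) * (Complex.exp ((a + t * Complex.I - s0) ^ 2) / (a + t * Complex.I - s0))

/-- T0b: weighted Hölder inequality. -/
def Hold : Prop := ∀ (p : ℝ≥0∞) (w : ℝ), 1 ≤ p → ∃ C : ℝ, 0 < C ∧ ∀ (g h : ℝ → ℂ) (M : ℝ),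
  Continuous g → Continuous h → 0 ≤ M → (∀ t, ‖h t‖ ≤ M * (1 + |t|) ^ (-w - 2)) →
  eLpNorm (fun t : ℝ => g t * (((1 + |t|) ^ (-w) : ℝ) : ℂ)) p volume ≠ ⊤ →
  ‖∫ t : ℝ, g t * h t‖ ≤ C * M * (eLpNorm (fun t : ℝ => g t * (((1 + |t|) ^ (-w) : ℝ) : ℂ)) p volume).toReal

/-- T0c: test functions isolating the integer `m`. -/
def Test : Prop := ∀ σ K : ℝ, ∃ C B : ℝ, 0 < C ∧ 0 < B ∧ ∀ m : ℕ, 1 ≤ m → ∃ Φ : ℂ → ℂ, Differentiable ℂ Φ ∧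
  (∀ a b J : ℝ, ∃ C' : ℝ, ∀ s : ℂ, a ≤ s.re → s.re ≤ b → ‖Φ s‖ ≤ C' * (1 + |s.im|) ^ (-J)) ∧
  (∀ c : ℝ, ∀ k : ℕ, 1 ≤ k →
    ∫ t : ℝ, (k : ℂ) ^ (-((c : ℂ) + t * Complex.I)) * Φ (c + t * Complex.I) = if k = m then 1 else 0) ∧
  ∀ t : ℝ, ‖Φ (σ + t * Complex.I)‖ ≤ C * (m : ℝ) ^ B * (1 + |t|) ^ (-K)

/-- The coefficients of `F A` up to `N`. -/
def bco (lam a : ℕ → ℂ) (m : ℕ) : ℂ := ∑ d ∈ m.divisors, a d * lam (m / d)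

/-- T1: Littlewood's bound to the right of the zeros. -/
def Lit : Prop := ∀ (lam mu : ℕ → ℂ) (F : ℂ → ℂ), LF lam mu F → ∀ θ σ b ε : ℝ, ZFr F θ → θ < σ → 0 < ε →
  ∃ C : ℝ, 0 < C ∧ ∀ s : ℂ, σ ≤ s.re → s.re ≤ b → ‖F s‖ ≤ C * (1 + |s.im|) ^ ε ∧
    ‖(F s)⁻¹‖ ≤ C * (1 + |s.im|) ^ ε

/-- T2: Dirichlet polynomials approximating `1/F`. -/
def Approx : Prop := ∀ (lam mu : ℕ → ℂ) (F : ℂ → ℂ), LF lam mu F → ∀ θ σ ε : ℝ, ZFr F θ → θ < σ → 0 < ε →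
  ∃ C : ℝ, 0 < C ∧ ∀ N : ℕ, 1 ≤ N → ∀ t : ℝ,
    ‖(F (σ + t * Complex.I))⁻¹ - DP N (moll mu N) (σ + t * Complex.I)‖ ≤
      C * (N : ℝ) ^ (-(σ - θ) + ε) * (1 + |t|) ^ ε

/-- T3: the upper bound. -/
def Upper : Prop := ∀ (lam mu : ℕ → ℂ) (F : ℂ → ℂ), LF lam mu F → ∀ (p : ℝ≥0∞) (w : ℝ), 1 ≤ p →
  1 / p.toReal < w → ∀ θ σ ε : ℝ, ZFr F θ → θ < σ → 0 < ε →
  ∃ C : ℝ, 0 < C ∧ ∀ N : ℕ, 1 ≤ N →
    nrm F p w σ N (moll mu N) ≤ ENNReal.ofReal (C * (N : ℝ) ^ (-(σ - θ) + ε))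

/-- T4a: polynomial bound for the coefficients of `F A`, `m ≤ N`. -/
def CoefB : Prop := ∀ (lam mu : ℕ → ℂ) (F : ℂ → ℂ), LF lam mu F → ∀ (p : ℝ≥0∞) (w σ : ℝ), 1 ≤ p →
  ∃ C B : ℝ, 0 < C ∧ 0 < B ∧ ∀ (N : ℕ) (a : ℕ → ℂ), 1 ≤ N → nrm F p w σ N a ≤ 1 →
    ∀ m ∈ Finset.Icc 1 N, ‖bco lam a m‖ ≤ C * (m : ℝ) ^ B

/-- T4b: polynomial bound for the coefficients. -/
def Coef : Prop := ∀ (lam mu : ℕ → ℂ) (F : ℂ → ℂ), LF lam mu F → ∀ (p : ℝ≥0∞) (w σ : ℝ), 1 ≤ p →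
  ∃ C B : ℝ, 0 < C ∧ 0 < B ∧ ∀ (N : ℕ) (a : ℕ → ℂ), 1 ≤ N → nrm F p w σ N a ≤ 1 →
    ∀ n ∈ Finset.Icc 1 N, ‖a n‖ ≤ C * (N : ℝ) ^ B

/-- T5a: pointwise bound to the right of the line. -/
def StepR : Prop := ∀ (lam mu : ℕ → ℂ) (F : ℂ → ℂ), LF lam mu F → ∀ (p : ℝ≥0∞) (w σ : ℝ), 1 ≤ p →
  ∀ δ κ b K : ℝ, 0 < δ → 0 < κ → ∃ C B : ℝ, 0 < C ∧ 0 < B ∧ ∀ (N : ℕ) (a : ℕ → ℂ), 1 ≤ N →
    nrm F p w σ N a ≤ 1 → ∀ s : ℂ, σ + δ ≤ s.re → s.re ≤ b →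
      ‖GG F N a s‖ ≤ C * (1 + |s.im|) ^ B * (N : ℝ) ^ κ * ((nrm F p w σ N a).toReal + (N : ℝ) ^ (-K))

/-- T5b: the lower bound. -/
def Lower : Prop := ∀ (lam mu : ℕ → ℂ) (F : ℂ → ℂ), LF lam mu F → ∀ (p : ℝ≥0∞) (w σ : ℝ), 1 ≤ p →
  ∀ ρ : ℂ, F ρ = 0 → ∀ η : ℝ, 0 < η → ∃ c : ℝ, 0 < c ∧ ∀ (N : ℕ) (a : ℕ → ℂ), 1 ≤ N →
    ENNReal.ofReal (c * (N : ℝ) ^ (-(max 0 (σ - ρ.re)) - η)) ≤ nrm F p w σ N a

/-- T7a: polynomial growth of Dirichlet L-functions in all vertical strips. -/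
def DirGrowth : Prop := ∀ (q : ℕ) [NeZero q] (χ : DirichletCharacter ℂ q), χ ≠ 1 →
  ∀ a b : ℝ, ∃ C A : ℝ, ∀ s : ℂ, a ≤ s.re → s.re ≤ b →
    ‖DirichletCharacter.LFunction χ s‖ ≤ C * (1 + |s.im|) ^ A

/-- T7b: all non-trivial Dirichlet L-functions are examples (`mu n = μ(n) χ(n)`). -/
def DirInst : Prop := ∀ (q : ℕ) [NeZero q] (χ : DirichletCharacter ℂ q), χ ≠ 1 →
  LF (fun n => χ n) (fun n => (ArithmeticFunction.moebius n : ℂ) * χ n) (DirichletCharacter.LFunction χ) ∧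
  ∃ ρ : ℂ, DirichletCharacter.LFunction χ ρ = 0

/-- T8: the zeros in the critical strip are symmetric about the line `Re s = 1/2`. -/
def Sym : Prop := ∀ (q : ℕ) [NeZero q] (χ : DirichletCharacter ℂ q), χ ≠ 1 → χ.IsPrimitive →
  ∀ s : ℂ, 0 < s.re → s.re < 1 → DirichletCharacter.LFunction χ s = 0 →
    DirichletCharacter.LFunction χ (1 - (starRingEnd ℂ) s) = 0

/-- T9: the zeros of a primitive L-function reach (at least) to the line `Re s = 1/2`. -/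
def ThetaHalf : Prop := ∀ (q : ℕ) [NeZero q] (χ : DirichletCharacter ℂ q), χ ≠ 1 → χ.IsPrimitive →
  ∀ θ : ℝ, θ < 1 / 2 → ¬ ZFr (DirichletCharacter.LFunction χ) θ

end

end Pool.Agent.H295R2.Mol
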